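import Pool.Agent.H.MP_e449c6_nt.C

set_option autoImplicit false
set_option linter.unusedSectionVars false
open Finset Matrix NumberField Real Polynomial

namespace Pool.Agent.H.MP_29211c_nt

open MP_4f0cf1_nt MP_e449c6_nt Lib.helper20.Quad

lemma two_val {ι : Type*} (s : Finset ι) (f : ι → ℂ) (hf : ∀ i ∈ s, f i = 1 ∨ f i = -1)
    (g : ℂ → ℂ) : ∃ a b : ℕ, a + b = #s ∧ ∑ i ∈ s, f i = a - b ∧
      ∏ i ∈ s, g (f i) = g 1 ^ a * g (-1) ^ b := by
  classical
  induction s using Finset.induction_on with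
  | empty => exact ⟨0, 0, by simp⟩
  | insert i s hi ih =>
    obtain ⟨a, b, h1, h2, h3⟩ := ih fun j hj => hf j (mem_insert_of_mem hj)
    rw [sum_insert hi, prod_insert hi, card_insert_of_notMem hi, h2, h3]
    rcases hf i (mem_insert_self _ _) with h | h <;> rw [h]
    · exact ⟨a + 1, b, by omega, by push_cast; ring, by ring⟩
    · exact ⟨a, b + 1, by omega, by push_cast; ring, by ring⟩

lemma vsq (n : ℕ) (x : Fin n → ℂ) :
    (vandermonde x).det ^ 2 = (-1) ^ (n / 2) * ∏ i, ∏ j ∈ {i}ᶜ, (x i - x j) := by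
  have h : ∀ n : ℕ, ∏ j ∈ range n, ∏ _i ∈ range j, (-1 : ℂ) = (-1) ^ (n / 2) := fun n => by
    induction n with
    | zero => simp
    | succ n ih =>
      rw [prod_range_succ, ih, prod_const, card_range]
      rcases Nat.even_or_odd' n with ⟨k, rfl | rfl⟩
      · simp [show (2 * k + 1) / 2 = k by omega]
      · simp [show (2 * k + 1) / 2 = k by omega, show (2 * k + 1 + 1) / 2 = k + 1 by omega, pow_succ]
  rw [← prod_prod_Ioi_mul_eq_prod_prod_off_diag fun j i => x i - x j, ← h,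
    ← ioi n fun _ _ => -1, det_vandermonde, sq]
  simp only [← prod_mul_distrib]
  exact prod_congr rfl fun i _ => prod_congr rfl fun j _ => by ring

variable {p n : ℕ} [Fact p.Prime]

/-- Residues or nonresidues. -/
noncomputable def S (p : ℕ) [Fact p.Prime] (s : ℂ) : Finset (ZMod p) :=
  univ.filter fun a => c ℂ a = s

/-- The product of `1 - w a` over residues or nonresidues. -/
noncomputable def Pr (p : ℕ) [Fact p.Prime] (s : ℂ) : ℂ := ∏ a ∈ S p s, (1 - w a)

lemma mem_S {s : ℂ} {a : ZMod p} : a ∈ S p s ↔ c ℂ a = s := by simp [S]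

lemma split {M : Type*} [CommMonoid M] (f : ZMod p → M) :
    ∏ a ∈ univ.erase 0, f a = (∏ a ∈ S p 1, f a) * ∏ a ∈ S p (-1), f a := by
  rw [← prod_union (disjoint_left.2 fun a h1 h2 => by
    have := (mem_S.1 h1).symm.trans (mem_S.1 h2); norm_num at this)]
  refine prod_congr (ext fun a => ?_) fun _ _ => rfl
  simp only [mem_erase, mem_univ, and_true, mem_union, mem_S]
  exact ⟨c_pm, fun h h0 => by simp [h0] at h⟩

lemma split' (f : ZMod p → ℂ) :
    ∑ a, f a = f 0 + (∑ a ∈ S p 1, f a + ∑ a ∈ S p (-1), f a) := by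
  rw [← add_sum_erase _ _ (mem_univ 0)]
  exact congrArg _ (split (M := Multiplicative ℂ) f)

lemma S_mul {M : Type*} [CommMonoid M] {t : ZMod p} (ht : t ≠ 0) (s : ℂ) (f : ZMod p → M) :
    ∏ a ∈ S p s, f (a * t) = ∏ a ∈ S p (s * c ℂ t), f a :=
  prod_equiv (Equiv.mulRight₀ t ht) (fun a => by
    simp [mem_S, c_mul, left_ne_zero_of_mul_eq_one (c_sq (R := ℂ) ht)]) fun _ _ => rfl

variable (hp : p = 2 * n + 1)
include hp

lemma card_S : #(S p 1) = n ∧ #(S p (-1)) = n := by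
  have h1 := split' (p := p) fun _ => 1
  have h2 := split' (c ℂ (p := p))
  have h3 := c_sum (R := ℂ) hp 1 0 one_ne_zero
  simp only [zero_add, one_mul] at h3
  rw [h3, sum_congr rfl fun a ha => mem_S.1 ha, sum_congr rfl (s₁ := S p (-1))
    fun a ha => mem_S.1 ha] at h2
  simp at h1 h2
  have h4 : p = 1 + (#(S p 1) + #(S p (-1))) := by exact_mod_cast h1
  have h5 : #(S p 1) = #(S p (-1)) := by
    exact_mod_cast (by linear_combination -h2 : (#(S p 1) : ℂ) = #(S p (-1)))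
  omega

lemma Pr_mul : Pr p 1 * Pr p (-1) = p := (split _).symm.trans (prod_sub hp)

lemma prod_w (h3 : 3 < p) (s : ℂ) : ∏ a ∈ S p s, w a = 1 := by
  have h1 : ∀ T : Finset (ZMod p), ∏ a ∈ T, w a = w (∑ a ∈ T, a) := fun T => by
    induction T using Finset.induction_on with
    | empty => simp
    | insert a T ha ih => rw [prod_insert ha, sum_insert ha, w_add, ih]
  have h2 := S_mul (M := Multiplicative (ZMod p)) (mul_ne_zero (two_ne hp) (two_ne hp)) s
    Multiplicative.ofAdd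
  rw [c_mul, c_sq (two_ne hp), mul_one] at h2
  replace h2 : ∑ a ∈ S p s, a * (2 * 2) = ∑ a ∈ S p s, a := h2
  rw [← sum_mul] at h2
  have h4 : (3 : ZMod p) ≠ 0 := by simpa using nz hp (k := 3) (by omega) h3
  rw [h1, mul_left_cancel₀ h4 (show 3 * ∑ a ∈ S p s, a = 3 * 0 by linear_combination h2), w_zero]

lemma disc (h3 : 3 < p) : ∃ a b : ℕ, a + b + 1 = n ∧ 2 * (a - b : ℂ) = -1 - c ℂ (-1 : ZMod p) ∧
    ∏ i ∈ S p (-1), ∏ j ∈ (S p (-1)).erase i, (w i - w j) = Pr p (-1) ^ a * Pr p 1 ^ b := by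
  have h1 : (1 : ZMod p) ∈ S p 1 := mem_S.2 c_one
  obtain ⟨a, b, a1, a2, a3⟩ := two_val ((S p 1).erase 1) (fun t => c ℂ (t - 1))
    (fun t ht => c_pm (sub_ne_zero.2 (ne_of_mem_erase ht))) fun s => Pr p (-1 * s)
  refine ⟨a, b, by rw [a1, card_erase_add_one h1, (card_S hp).1], ?_, ?_⟩
  · have b1 := split' fun t : ZMod p => c ℂ (-1 + 1 * t) + c ℂ (0 + t) * c ℂ (-1 + t)
    rw [sum_add_distrib, c_sum hp _ _ one_ne_zero, jac hp, if_neg (by simp), sum_eq_zero
      (s := S p (-1)) fun t ht => by simp [mem_S.1 ht], sum_congr rfl (s₁ := S p 1)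
      (g := fun t => 2 * c ℂ (t - 1)) fun t ht => by simp [mem_S.1 ht, neg_add_eq_sub, two_mul],
      ← mul_sum, ← sum_erase (a := 1) _ (by simp), a2] at b1
    simp at b1
    linear_combination -b1
  · simp only [mul_one, mul_neg, neg_neg] at a3
    rw [← a3, prod_congr rfl (g := fun i => ∏ t ∈ (S p 1).erase 1, w i * (1 - w (i * (t - 1))))
      fun i hi => ?_, prod_comm]
    · refine prod_congr rfl fun t ht => ?_
      rw [prod_mul_distrib, prod_w hp h3, one_mul, S_mul (sub_ne_zero.2 (ne_of_mem_erase ht)) _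
        fun a => 1 - w a, Pr]
    · have h2 := mem_S.1 hi
      have h4 : i ≠ 0 := fun h => by simp [h] at h2
      symm
      refine prod_equiv (Equiv.mulLeft₀ i h4) (fun t => by simp [mem_S, c_mul, h2, h4])
        fun t _ => ?_
      simp only [Equiv.mulLeft₀_apply]
      rw [show i * t = i + i * (t - 1) by ring, w_add]
      ring

lemma entry (j k : ℕ) (h : j + k < p) : -2 * ∑ b ∈ S p (-1), w b ^ j * w b ^ k =
    1 + c ℂ (j + k : ZMod p) * tau p - if j = 0 ∧ k = 0 then (p : ℂ) else 0 := by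
  have h1 := split' fun a : ZMod p => u a * w (a * (j + k) : ZMod p) - w (a * (j + k) : ZMod p)
  rw [sum_sub_distrib, four_u hp, four_one, sum_eq_zero (s := S p 1) fun a ha => by
    have := mem_S.1 ha
    rw [u, this, if_neg fun h => by simp [h] at this]; ring, if_congr (Q := j = 0 ∧ k = 0)
    ⟨fun h0 => by by_contra h1; exact nz hp (k := j + k) (by omega) h (by simpa using h0),
      fun h => by simp [h]⟩ rfl rfl] at h1
  rw [h1, mul_sum]
  simp only [u, c_zero, if_true, zero_add, zero_mul, w_zero, mul_one, sub_self]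
  refine sum_congr rfl fun a ha => ?_
  have := mem_S.1 ha
  rw [this, if_neg fun h => by simp [h] at this, mul_add, w_add, w_pow, w_pow]
  ring

lemma detC (h3 : 3 < p) : ∃ a b : ℕ, a + b + 1 = n ∧ 2 * (a - b : ℂ) = -1 - c ℂ (-1 : ZMod p) ∧
    (of fun j k : Fin n => -2 / tau p * ∑ b ∈ S p (-1), w b ^ (j : ℕ) * w b ^ (k : ℕ)).det =
      (-2 / tau p) ^ n * ((-1) ^ (n / 2) * (Pr p (-1) ^ a * Pr p 1 ^ b)) := by
  obtain ⟨a, b, a1, a2, a3⟩ := disc hp h3
  refine ⟨a, b, a1, a2, ?_⟩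
  have β := (equivFinOfCardEq (card_S hp).2).symm
  have h1 := det_smul ((vandermonde fun i => w (β i).1)ᵀ * vandermonde fun i => w (β i).1)
    (-2 / tau p)
  rw [det_mul, det_transpose, ← sq, vsq, Fintype.card_fin] at h1
  rw [← a3, ← prod_coe_sort (S p (-1)), ← β.prod_comp]
  refine .trans (congrArg det ?_) (h1.trans ?_)
  · ext j k
    simp only [of_apply, Matrix.smul_apply, mul_apply, transpose_apply, vandermonde_apply,
      smul_eq_mul]
    rw [← sum_coe_sort (S p (-1)), ← β.sum_comp]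
  · congr 2
    refine prod_congr rfl fun i _ => prod_bij (fun j _ => (β j).1) (fun j hj => ?_)
      (fun j _ k _ h => β.injective (Subtype.ext h)) (fun b hb => ?_) fun _ _ => rfl
    · simpa [Subtype.coe_inj] using hj
    · refine ⟨β.symm ⟨b, mem_of_mem_erase hb⟩, ?_, by simp⟩
      simpa [Equiv.symm_apply_eq, Subtype.ext_iff] using ne_of_mem_erase hb

lemma key (h3 : 3 < p) (s : ℂ) (hs : #(S p s) = n) : ∃ E : ℂ[X], E.coeff 0 = c ℂ (-1 : ZMod p) ∧
    E.coeff n = 1 ∧ E.coeff (n - 1) = -∑ a ∈ S p s, w a ∧ (∀ j, n < j → E.coeff j = 0) ∧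
    E.eval 1 = Pr p s ∧ ∀ a ∈ S p s, E.eval (w a) = 0 := by
  have hd : (∏ a ∈ S p s, (X - C (w a))).natDegree = n := by
    rw [natDegree_finsetProd_X_sub_C_eq_card, hs]
  refine ⟨∏ a ∈ S p s, (X - C (w a)), ?_, ?_, ?_,
    fun j hj => coeff_eq_zero_of_natDegree_lt (by omega), by simp [eval_prod, Pr], fun a ha => ?_⟩
  · rw [coeff_zero_eq_eval_zero, eval_prod]
    simp only [eval_sub, eval_X, eval_C, zero_sub]
    rw [prod_neg, prod_w hp h3, hs, mul_one]
    by_cases h4 : p % 4 = 1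
    · rw [c_m1 h4, c_one, (Nat.even_iff.2 (by omega)).neg_one_pow]
    · rw [c_m3 (by omega), c_one, (Nat.odd_iff.2 (by omega)).neg_one_pow]
  · rw [← hd]; exact (monic_prod_of_monic _ _ fun a _ => monic_X_sub_C _).coeff_natDegree
  · rw [← hs]; exact prod_X_sub_C_coeff_card_pred _ _ (by omega)
  · rw [eval_prod]; exact prod_eq_zero ha (by simp)

omit hp in
lemma main {m : ℕ} (hp : p = 2 * (m + 1) + 1) (h3 : 3 < p) : ∃ a b : ℕ, a + b = m ∧
    2 * (a - b : ℂ) = -1 - c ℂ (-1 : ZMod p) ∧ ∀ x y z v : ℂ,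
    (of fun j k : Fin (m + 1) => x + c ℂ ((j : ℕ) + (k : ℕ) : ZMod p) + c ℂ ((j : ℕ) : ZMod p) * y +
      c ℂ ((k : ℕ) : ZMod p) * z + c ℂ ((j : ℕ) : ZMod p) * c ℂ ((k : ℕ) : ZMod p) * v).det =
      (-2 / tau p) ^ (m + 1) * ((-1) ^ ((m + 1) / 2) * (Pr p (-1) ^ a * Pr p 1 ^ b)) / (4 * Pr p 1) *
        (((2 + tau p) * Pr p 1 + (2 - tau p) * Pr p (-1)) * ((1 + y) * (1 + z) - x * v) -
          x * tau p * ((2 - tau p) * Pr p (-1) - (2 + tau p) * Pr p 1)) := by
  obtain ⟨a, b, a1, a2, a3⟩ := detC hp h3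
  refine ⟨a, b, by omega, a2, fun x y z v => ?_⟩
  obtain ⟨E, e0, e1, e2, e3, e4, e5⟩ := key hp h3 1 (card_S hp).1
  obtain ⟨F, f0, f1, f2, f3, f4, f5⟩ := key hp h3 (-1) (card_S hp).2
  have hp0 : (p : ℂ) ≠ 0 := Nat.cast_ne_zero.2 (by omega)
  have t0 : tau p ≠ 0 := by simpa using tau_ne hp 0
  have t2 : tau p + 2 ≠ 0 := by simpa using tau_ne hp 2
  have P0 : Pr p 1 ≠ 0 := left_ne_zero_of_mul ((Pr_mul hp).symm ▸ hp0)
  have m1 := c_sq (R := ℂ) (a := (-1 : ZMod p)) (by simp)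
  have ev : ∀ (f : ℂ[X]) (N : ℕ) (t : ℂ), (∀ j, N < j → f.coeff j = 0) →
      f.eval t = ∑ j ∈ range (N + 1), f.coeff j * t ^ j := fun f N t h =>
    eval_eq_sum_range' (Nat.lt_succ_of_le (natDegree_le_iff_coeff_eq_zero.2 h)) t
  have k1 : ∀ k ≤ m + 1, ∑ b ∈ S p (-1), w b ^ k * E.eval (w b) =
      (if k = 0 then p * c ℂ (-1 : ZMod p) else 0) - Pr p 1 := fun k hk => by
    have := split' fun a : ZMod p => w a ^ k * E.eval (w a)
    rw [sum_eq_zero (s := S p 1) fun a ha => by rw [e5 a ha, mul_zero], w_zero, e4,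
      sum_congr rfl (s₁ := univ) (g := fun a => ∑ j ∈ range (m + 2), E.coeff j *
        w (a * (k + j : ℕ) : ZMod p)) fun a _ => by
          simp only [ev E _ _ e3, mul_sum, ← w_pow, pow_add, mul_left_comm], sum_comm] at this
    simp only [← mul_sum, four_one] at this
    rw [sum_range_succ', sum_eq_zero fun j hj => by
      rw [if_neg (nz hp (by omega) (by have := mem_range.1 hj; omega)), mul_zero], e0] at this
    split_ifs with h
    · simp [h] at this ⊢
      linear_combination -this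
    · rw [if_neg (nz hp (by omega) (by omega))] at this
      linear_combination -this
  obtain ⟨M, hM⟩ : ∃ M, M = of fun j k : Fin (m + 1) =>
    -2 / tau p * ∑ b ∈ S p (-1), w b ^ (j : ℕ) * w b ^ (k : ℕ) := ⟨_, rfl⟩
  have k2 : ∀ (f : ℂ[X]) (j : Fin (m + 1)), (∀ j, m < j → f.coeff j = 0) → ∑ k, M j k * f.coeff k =
      -2 / tau p * ∑ b ∈ S p (-1), w b ^ (j : ℕ) * f.eval (w b) := fun f j h => by
    simp only [hM, of_apply, ev f _ _ h, mul_assoc, ← mul_sum, sum_mul,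
      ← Fin.sum_univ_eq_sum_range]
    rw [sum_comm]
    simp only [mul_sum, mul_comm (f.coeff _)]
  have s1 : ∑ a ∈ S p 1, w a - ∑ a ∈ S p (-1), w a = tau p := by
    have := split' fun a : ZMod p => c ℂ a * w (a * 1)
    rw [four_c hp, sum_congr rfl (s₁ := S p 1) (g := w) fun a ha => by simp [mem_S.1 ha],
      sum_congr rfl (s₁ := S p (-1)) (g := fun a => -w a) fun a ha => by simp [mem_S.1 ha]] at this
    simpa [sub_eq_add_neg] using this.symm
  have v1 : ∀ j, m < j → (F - E).coeff j = 0 := fun j hj => by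
    rcases (Nat.succ_le_of_lt hj).eq_or_lt with rfl | h
    · rw [coeff_sub, e1, f1, sub_self]
    · rw [coeff_sub, e3 j h, f3 j h, sub_self]
  have v2 : ∀ j, m < j → (X * (F - E) - C (tau p) * F).coeff j = 0 := fun j hj => by
    obtain ⟨j, rfl⟩ : ∃ i, j = i + 1 := ⟨j - 1, by omega⟩
    rw [coeff_sub, coeff_X_mul, coeff_C_mul]
    rcases (Nat.le_of_lt_succ hj).eq_or_lt with rfl | h
    · rw [coeff_sub, f1, show F.coeff m = _ from f2, show E.coeff m = _ from e2]
      linear_combination s1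
    · rw [v1 j h, f3 _ (by omega)]; simp
  have r1 : ∀ j, ∑ k, M j k * (F - E).coeff k =
      2 / tau p * ((if j = 0 then p * c ℂ (-1 : ZMod p) else 0) - Pr p 1) := fun j => by
    rw [k2 _ _ v1, sum_congr rfl (g := fun b => -(w b ^ (j : ℕ) * E.eval (w b))) fun b hb => by
      simp [f5 b hb], sum_neg_distrib, k1 _ (by omega)]
    simp only [Fin.val_eq_zero_iff]
    ring
  have r2 : ∀ j, ∑ k, M j k * (X * (F - E) - C (tau p) * F).coeff k =
      -2 / tau p * Pr p 1 := fun j => by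
    rw [k2 _ _ v2, sum_congr rfl (g := fun b => -(w b ^ ((j : ℕ) + 1) * E.eval (w b)))
      fun b hb => by simp [f5 b hb]; ring, sum_neg_distrib, k1 _ (by omega)]
    simp
  have c1 : (F - E).coeff 0 = 0 := by simp [e0, f0]
  have c2 : (X * (F - E) - C (tau p) * F).coeff 0 = -(tau p * c ℂ (-1 : ZMod p)) := by simp [f0]
  have d1 := ev _ _ 1 v1
  have d2 := ev _ _ 1 v2
  simp only [eval_sub, eval_mul, eval_X, eval_C, e4, f4, one_pow, mul_one, one_mul,
    ← Fin.sum_univ_eq_sum_range] at d1 d2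
  generalize F - E = V at *
  generalize X * V - C (tau p) * F = W at *
  have hN : ∀ j k : Fin (m + 1), (tau p)⁻¹ + c ℂ ((j : ℕ) + (k : ℕ) : ZMod p) =
      M j k + if j = 0 ∧ k = 0 then p / tau p else 0 := fun j k => by
    have := entry hp j k (by omega)
    simp only [hM, of_apply, Fin.val_eq_zero_iff] at this ⊢
    split_ifs at * <;> field_simp <;> linear_combination -this
  have g1 := upd M (of fun j (_ : Fin 1) => V.coeff j - W.coeff j)
    (of fun j _ => if j = 0 then 2 / tau p * (p * c ℂ (-1 : ZMod p)) else 0)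
    (of fun _ k => if k = 0 then c ℂ (-1 : ZMod p) / 2 else 0) (by
      ext j i
      simp only [mul_apply, of_apply, mul_sub, sum_sub_distrib, r1, r2]
      split_ifs <;> ring)
  rw [det_fin_one] at g1
  simp [mul_apply, c1, c2] at g1
  have h4 : ∀ j : Fin (m + 1), ∑ k : Fin (m + 1), ((tau p)⁻¹ + c ℂ ((j : ℕ) + (k : ℕ) : ZMod p)) *
      (tau p * V.coeff k + 2 * W.coeff k) = -2 / tau p * (tau p + 2) * Pr p 1 := fun j => by
    simp only [hN, add_mul, mul_add, sum_add_distrib, mul_left_comm (M _ _), ← mul_sum, r1, r2]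
    by_cases h : j = 0 <;> simp [h, c1, c2] <;> field_simp <;> ring
  have := gen (of fun j k : Fin (m + 1) => (tau p)⁻¹ + c ℂ ((j : ℕ) + (k : ℕ) : ZMod p)) _
    (fun j => c ℂ ((j : ℕ) : ZMod p)) (fun j => c ℂ ((j : ℕ) : ZMod p)) (tau p)⁻¹ _
    (-M.det * tau p / (4 * Pr p 1)) (mul_ne_zero (mul_ne_zero (div_ne_zero (by simp) t0) t2) P0) h4
    (by simp) (by
      refine .trans (congrArg det ?_) (g1.trans ?_)
      · ext j k
        simp only [hN, mul_apply, of_apply, Matrix.add_apply, Fin.sum_univ_one]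
        by_cases h : j = 0 <;> by_cases h' : k = 0 <;> simp [h, h']
        linear_combination -p / tau p * m1
      · field_simp
        linear_combination 4 * M.det * tau p * m1) x y z v
  have h5 := h4 0
  simp only [of_apply, add_sub_cancel_left, Fin.val_zero, Nat.cast_zero, zero_add, c_zero,
    add_mul (tau p)⁻¹, sum_add_distrib (f := fun _ => (tau p)⁻¹ * _), ← mul_sum] at this h5
  rw [this, eq_sub_iff_add_eq'.2 h5, ← a3, ← hM, sum_add_distrib, ← mul_sum, ← mul_sum, ← d1, ← d2]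
  field_simp
  ring

lemma Pr_neg (h : p % 4 = 3) (h3 : 3 < p) : Pr p (-1) = -Pr p 1 := by
  have h1 := S_mul (t := (-1 : ZMod p)) (by simp) 1 fun a => 1 - w a
  have h2 := prod_neg (s := S p 1) fun a => 1 - w a
  rw [c_m3 h, c_one, one_mul] at h1
  rw [(card_S hp).1, (Nat.odd_iff.2 (by omega)).neg_one_pow, neg_one_mul] at h2
  rw [Pr, ← h1, Pr, ← h2]
  refine (mul_one _).symm.trans ((congrArg _ (prod_w hp h3 1).symm).trans ?_)
  rw [← prod_mul_distrib]
  exact prod_congr rfl fun a _ => by rw [mul_neg_one]; linear_combination -w_neg a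

lemma Pr_one (h : p % 4 = 1) {K : Type*} [Field K] [NumberField K]
    (h2 : Module.finrank ℚ K = 2) {s : K} (hs : s ^ 2 = p) (φ : K →+* ℝ) (ε : (𝓞 K)ˣ)
    (h1 : 1 < φ ε) (hε : ∀ η : (𝓞 K)ˣ, 1 < φ η → φ ε ≤ φ η) :
    Pr p (-1) = (√p * φ ε ^ classNumber K : ℝ) := by
  have hne : ∀ a : ZMod p, a ≠ 0 → ‖1 - w a‖ ≠ 0 := fun a ha h =>
    ha (w_inj ((sub_eq_zero.1 (norm_eq_zero.1 h)).symm.trans w_zero.symm))
  have h3 : ∀ s : ℂ, s ≠ 0 → Real.log ‖Pr p s‖ = ∑ a ∈ S p s, Real.log ‖1 - w a‖ := fun s hs => by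
    rw [Pr, norm_prod, Real.log_prod fun a ha => hne a fun h => hs (by
      simpa [h] using (mem_S.1 ha).symm)]
  have h4 := split' fun a : ZMod p => c ℂ a * Real.log ‖1 - w a‖
  rw [sum_zmod, range_eq_Ico, sum_eq_sum_Ico_succ_bot (by omega), sum_congr rfl (s₁ := Ico _ _)
    (g := fun a : ℕ => ((legendreSym p a * Real.log (2 * Real.sin (π * (a / p))) : ℝ) : ℂ))
    fun a ha => by
      rw [← Complex.log_re, w_nat, log_one_sub (frac ha).1 (frac ha).2]; simp [c, legendreSym],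
    ← Complex.ofReal_sum, ← neg_eq_iff_eq_neg.2 (h_pos h2 (by rwa [← sq]) h φ ε h1 hε),
    sum_congr rfl (s₁ := S p 1) (g := fun a => (Real.log ‖1 - w a‖ : ℂ)) fun a ha => by
      simp [mem_S.1 ha], sum_congr rfl (s₁ := S p (-1)) (g := fun a => -(Real.log ‖1 - w a‖ : ℂ))
      fun a ha => by simp [mem_S.1 ha], sum_neg_distrib, ← Complex.ofReal_sum,
    ← Complex.ofReal_sum, ← h3 _ (by simp), ← h3 _ (by simp)] at h4
  have hp0 : (p : ℂ) ≠ 0 := Nat.cast_ne_zero.2 (by omega)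
  have h5 := congrArg (fun t => Real.log ‖t‖) (Pr_mul hp)
  have n1 := norm_ne_zero_iff.2 (left_ne_zero_of_mul ((Pr_mul hp).symm ▸ hp0))
  have n2 := norm_ne_zero_iff.2 (right_ne_zero_of_mul ((Pr_mul hp).symm ▸ hp0))
  simp only [norm_mul, Real.log_mul n1 n2, Complex.norm_natCast] at h5
  have h6 : Pr p (-1) = (∏ j : Fin n, Complex.normSq (if c ℂ (e p j) = -1 then 1 - w (e p j)
      else 1) : ℝ) := by
    rw [Complex.ofReal_prod, Pr, S, prod_filter, ← prod_erase (a := 0) _ (by simp), half_prod' hp]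
    refine prod_congr rfl fun j _ => ?_
    rw [← Complex.mul_conj, c_m1 h]
    split_ifs <;> simp [w_conj]
  have h7 : (0 : ℝ) < √p := Real.sqrt_pos.2 (Nat.cast_pos.2 (by omega))
  have h8 : ‖Pr p (-1)‖ = √p * φ ε ^ classNumber K := by
    apply Real.log_injOn_pos (lt_of_le_of_ne (norm_nonneg _) n2.symm)
      (Set.mem_Ioi.2 (by positivity))
    rw [Real.log_mul h7.ne' (by positivity), Real.log_sqrt (Nat.cast_nonneg p), Real.log_pow]
    simp only [Nat.cast_zero, c_zero, zero_mul, zero_add] at h4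
    have h9 := congrArg Complex.re h4
    simp only [Complex.add_re, Complex.neg_re, Complex.ofReal_re] at h9
    linarith
  rw [← h8, h6, Complex.norm_real, Real.norm_of_nonneg
    (prod_nonneg fun _ _ => Complex.normSq_nonneg _)]

omit hp in
lemma three {m : ℕ} (hp : p = 2 * (m + 1) + 1) (h3 : 3 < p) (h : p % 4 = 3) (x y z v : ℂ) :
    (of fun j k : Fin (m + 1) => x + c ℂ ((j : ℕ) + (k : ℕ) : ZMod p) + c ℂ ((j : ℕ) : ZMod p) * y +
      c ℂ ((k : ℕ) : ZMod p) * z + c ℂ ((j : ℕ) : ZMod p) * c ℂ ((k : ℕ) : ZMod p) * v).det =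
      2 ^ m * (v * x - (y + 1) * (z + 1) - 2 * x) := by
  obtain ⟨a, b, a1, a2, a3⟩ := main hp h3
  have c6 := tau_sq hp
  have c7 := Pr_mul hp
  have t0 : tau p ≠ 0 := by simpa using tau_ne hp 0
  have P0 : Pr p 1 ≠ 0 := left_ne_zero_of_mul (c7.symm ▸ Nat.cast_ne_zero.2 (by omega))
  rw [c_m3 h, c_one] at a2 c6
  obtain rfl : a = b := by exact_mod_cast (by linear_combination a2 / 2 : (a : ℂ) = b)
  rw [a3, ← mul_pow, mul_comm (Pr p _), c7, Pr_neg hp h h3, show (m + 1) / 2 = a by omega, ← mul_pow,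
    ← c6, ← a1, ← two_mul, pow_succ, pow_mul, pow_mul, mul_right_comm (_ ^ a), ← mul_pow,
    show (-2 / tau p) ^ 2 * (tau p * tau p) = 2 ^ 2 by field_simp]
  field_simp
  ring

omit hp in
lemma one {m : ℕ} (hp : p = 2 * (m + 1) + 1) (h : p % 4 = 1) : ∃ a b : ℚ,
    Pr p (-1) = p * b + a * tau p ∧ ∀ x y z v : ℂ,
    (of fun j k : Fin (m + 1) => x + c ℂ ((j : ℕ) + (k : ℕ) : ZMod p) + c ℂ ((j : ℕ) : ZMod p) * y +
      c ℂ ((k : ℕ) : ZMod p) * z + c ℂ ((j : ℕ) : ZMod p) * c ℂ ((k : ℕ) : ZMod p) * v).det =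
      c ℂ (2 : ZMod p) * 2 ^ m * ((p * b - 2 * a) * x + (a - 2 * b) * (v * x - (y + 1) * (z + 1))) := by
  obtain ⟨a, b, a1, a2, a3⟩ := main hp (by omega)
  have c6 := tau_sq hp
  have c7 := Pr_mul hp
  have hp0 : (p : ℂ) ≠ 0 := Nat.cast_ne_zero.2 (by omega)
  have t0 : tau p ≠ 0 := by simpa using tau_ne hp 0
  have P0 : Pr p 1 ≠ 0 := left_ne_zero_of_mul (c7.symm ▸ hp0)
  have c5 := c_leg (R := ℂ) (p := p) 2
  rw [c_m1 h, c_one] at a2 c6
  obtain rfl : b = a + 1 := by exact_mod_cast (by linear_combination -a2 / 2 : (b : ℂ) = a + 1)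
  rw [two_leg (by omega), show (p + 1) / 4 = a + 1 by omega] at c5
  push_cast at c5
  have h1 : (-2 / tau p) ^ (m + 1) * ((-1) ^ ((m + 1) / 2) * (Pr p (-1) ^ a * Pr p 1 ^ (a + 1))) /
      (4 * Pr p 1) = c ℂ (2 : ZMod p) * 2 ^ m / (2 * p) := by
    rw [show (m + 1) / 2 = a + 1 by omega, c5, pow_succ (Pr p 1), ← mul_assoc (_ ^ a), ← mul_pow,
      mul_comm (Pr p (-1)), c7, show m + 1 = 2 * (a + 1) by omega, show m = 2 * a + 1 by omega,
      pow_mul, show (-2 / tau p) ^ 2 = 4 / p by field_simp; linear_combination -4 * c6,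
      pow_succ 2, pow_mul, show (2 : ℂ) ^ 2 = 4 by norm_num, div_pow]
    field_simp
    ring
  rw [h1] at a3
  have h2 : ∀ x : ℤ, ∃ d : ℤ, d = c ℂ (2 : ZMod p) * 2 ^ m / (2 * p) * ((2 + tau p) * Pr p 1 +
      (2 - tau p) * Pr p (-1) - x * tau p * ((2 - tau p) * Pr p (-1) - (2 + tau p) * Pr p 1)) :=
    fun x => by
      use (of fun j k : Fin (m + 1) => x + c ℤ ((j : ℕ) + (k : ℕ) : ZMod p)).det
      rw [Int.cast_det]
      refine .trans (congrArg det ?_) ((a3 x 0 0 0).trans (by ring))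
      ext; simp [c]
  obtain ⟨d, h3⟩ := h2 0
  obtain ⟨d', h4⟩ := h2 1
  have h5 : (p - 4 : ℂ) ≠ 0 := fun h5 => by
    have : p = 4 := by exact_mod_cast sub_eq_zero.1 h5
    omega
  have h6 := c_sq (R := ℂ) (two_ne hp)
  obtain ⟨A, hA⟩ : ∃ A, A = (Pr p (-1) - Pr p 1) / (2 * tau p) := ⟨_, rfl⟩
  obtain ⟨B, hB⟩ : ∃ B, B = (Pr p (-1) + Pr p 1) / (2 * p) := ⟨_, rfl⟩
  have b1 : Pr p (-1) = p * B + A * tau p := by rw [hA, hB]; field_simp; ring
  have b2 : Pr p 1 = p * B - A * tau p := by rw [hA, hB]; field_simp; ring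
  have b3 : ∀ x v : ℂ, c ℂ (2 : ZMod p) * 2 ^ m / (2 * p) * (((2 + tau p) * Pr p 1 +
      (2 - tau p) * Pr p (-1)) * v - x * tau p * ((2 - tau p) * Pr p (-1) - (2 + tau p) * Pr p 1)) =
      c ℂ (2 : ZMod p) * 2 ^ m * ((p * B - 2 * A) * x - (A - 2 * B) * v) := fun x v => by
    rw [b1, b2, div_mul_eq_mul_div, div_eq_iff (mul_ne_zero two_ne_zero hp0)]
    linear_combination c ℂ (2 : ZMod p) * 2 ^ m * (2 * x * (p * B - 2 * A) - 2 * A * v) * c6
  have b4 := b3 0 1
  have b5 := b3 1 1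
  simp only [mul_one] at b4 b5
  rw [Int.cast_zero, b4] at h3
  rw [Int.cast_one, b5] at h4
  have b6 : A = ((-1) ^ (a + 1) * (2 * d' - (p + 2) * d) / (2 ^ m * (p - 4)) : ℚ) := by
    push_cast
    rw [c5, h3, h4]
    field_simp
    linear_combination -(p - 4) * A * h6
  have b7 : B = ((-1) ^ (a + 1) * (d' - 3 * d) / (2 ^ m * (p - 4)) : ℚ) := by
    push_cast
    rw [c5, h3, h4]
    field_simp
    linear_combination -(p - 4) * B * h6
  obtain ⟨q, rfl⟩ : ∃ q : ℚ, A = q := ⟨_, b6⟩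
  obtain ⟨r, rfl⟩ : ∃ r : ℚ, B = r := ⟨_, b7⟩
  refine ⟨q, r, b1, fun x y z v => ?_⟩
  rw [a3, b3]
  ring

end Pool.Agent.H.MP_29211c_nt
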